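import Pool.Agent.Helper80.GP.FFTauOf
import Pool.Agent.Helper7.GP.FFStep

/-!
# GP-A4b: the stopped product functional
-/

open Finset
open scoped Classical

namespace GPG

noncomputable section

variable {L : LS} {P : Par} {pb : ℝ}

theorem FF_tau (hG : Good L P pb) (v : ℕ) (X Y : Finset ℕ) (hXY : Disjoint X Y)
    (hX : ∀ s ∈ X ∪ Y, s < v) :
    Ex L P v (fun C => FF L P v X Y (tau L P v C) C) ≤ ∏ s ∈ X ∪ Y, P.lam s :=
  FF_tau_of hG v X Y (fun t ht C hC hs => FF_step hG v X Y hXY hX t ht C hC hs)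

end

end GPG
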