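import Pool.Agent.Helper96.GP.Basics
import Pool.Agent.Helper7.GP.FFDefs

/-!
# GP-A4b: the stopped product functional (with the one step inequality as a hypothesis)
-/

open Finset
open scoped Classical

namespace GPG

noncomputable section

variable {L : LS} {P : Par} {pb : ℝ}

theorem FF_congr (v : ℕ) (X Y : Finset ℕ) (t : ℕ) (C C' : Finset ℕ)
    (h : ∀ x < t, (x ∈ C ↔ x ∈ C')) : FF L P v X Y t C = FF L P v X Y t C' := by
  have hv : ∀ s, val L P X t C s = val L P X t C' s := by
    intro s
    unfold val
    rw [run_congr C C' t h]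
    by_cases hs : t ≤ s
    · rw [if_pos hs, if_pos hs]
    · rw [if_neg hs, if_neg hs, pr_congr C C' s (fun x hx => h x (by omega))]
      have h1 : (s ∈ C) = (s ∈ C') := propext (h s (by omega))
      simp only [h1]
  unfold FF
  rw [run_congr C C' t h]
  simp only [hv]

theorem tau_congr_le (v t : ℕ) (C C' : Finset ℕ) (h : ∀ x < t, (x ∈ C ↔ x ∈ C'))
    (hs : tau L P v C ≤ t) : tau L P v C' = tau L P v C := by
  have h1 : tau L P v C' ≤ tau L P v C := by
    apply Nat.find_min'
    rcases tau_spec (L := L) (P := P) v C with h2 | h2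
    · exact Or.inl h2
    · right
      rw [← run_congr C C' _ (fun x hx => h x (by omega))]
      exact h2
  apply le_antisymm h1
  apply Nat.find_min'
  rcases tau_spec (L := L) (P := P) v C' with h2 | h2
  · exact Or.inl h2
  · right
    rw [run_congr C C' _ (fun x hx => h x (by omega))]
    exact h2

theorem FF_zero (v : ℕ) (X Y C : Finset ℕ) :
    FF L P v X Y 0 C = ∏ s ∈ X ∪ Y, P.lam s := by
  unfold FF val
  simp [run, St.init, St.m]

theorem FF_tau_of (hG : Good L P pb) (v : ℕ) (X Y : Finset ℕ)
    (hstep : ∀ t < v, ∀ C : Finset ℕ, C ⊆ range t → ¬ (run L P C t).stop v →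
      pr L P C t * FF L P v X Y (t + 1) (insert t C) +
        (1 - pr L P C t) * FF L P v X Y (t + 1) C ≤ FF L P v X Y t C) :
    Ex L P v (fun C => FF L P v X Y (tau L P v C) C) ≤ ∏ s ∈ X ∪ Y, P.lam s := by
  have h := Ex_step_le hG v (fun t C => FF L P v X Y (min t (tau L P v C)) C) ?_
  · have h1 : (fun C => FF L P v X Y (min v (tau L P v C)) C) =
        fun C => FF L P v X Y (tau L P v C) C := by
      funext C
      rw [min_eq_right (tau_le v C)]
    rw [h1] at h
    refine h.trans (le_of_eq ?_)
    simp only [Nat.zero_min]
    exact FF_zero v X Y ∅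
  · intro t ht C hC
    have hag : ∀ x < t, (x ∈ insert t C ↔ x ∈ C) := by
      intro x hx
      rw [mem_insert]
      constructor
      · rintro (h | h)
        · omega
        · exact h
      · exact Or.inr
    by_cases hst : tau L P v C ≤ t
    · have e1 : tau L P v (insert t C) = tau L P v C :=
        tau_congr_le v t C (insert t C) (fun x hx => (hag x hx).symm) hst
      rw [e1, min_eq_right hst, min_eq_right (by omega : tau L P v C ≤ t + 1),
        FF_congr v X Y _ (insert t C) C (fun x hx => hag x (by omega))]
      apply le_of_eq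
      ring
    · have e1 : t < tau L P v (insert t C) := by
        by_contra hn
        have := tau_congr_le v t (insert t C) C hag (not_lt.1 hn)
        omega
      have e2 : t < tau L P v C := not_le.1 hst
      rw [min_eq_left (by omega : t + 1 ≤ tau L P v (insert t C)),
        min_eq_left (by omega : t + 1 ≤ tau L P v C), min_eq_left (by omega : t ≤ tau L P v C)]
      exact hstep t ht C hC (not_stop_of_lt_tau v C t e2)

end

end GPG
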